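import Pool.Agent.helper61.OSR.Greedy

/-! # The greedy chain, the coupled chain and their expectation functionals -/

namespace Pool.Agent.helper61.OSR

variable {m : ℕ}

/-- one step of the greedy chain, acting on functions of the available set -/
noncomputable def stepG (f : Fin m → ℝ) (a : Arrival m) :
    (Finset (Fin m) → ℝ) →ₗ[ℝ] (Finset (Fin m) → ℝ) where
  toFun φ := fun S => prb f a S * φ (nxt f a S) + (1 - prb f a S) * φ S
  map_add' φ ψ := by funext S; simp only [Pi.add_apply]; ring
  map_smul' c φ := by funext S; simp only [Pi.smul_apply, smul_eq_mul, RingHom.id_apply]; ring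

theorem stepG_apply (f : Fin m → ℝ) (a : Arrival m) (φ : Finset (Fin m) → ℝ) (S : Finset (Fin m)) :
    stepG f a φ S = prb f a S * φ (nxt f a S) + (1 - prb f a S) * φ S := rfl

/-- one step of the coupled chain (common coin): first coordinate with weights `f`, second with
weights `f'` -/
noncomputable def stepC (f f' : Fin m → ℝ) (a : Arrival m) :
    (Finset (Fin m) × Finset (Fin m) → ℝ) →ₗ[ℝ] (Finset (Fin m) × Finset (Fin m) → ℝ) where
  toFun φ := fun s =>
    min (prb f a s.1) (prb f' a s.2) * φ (nxt f a s.1, nxt f' a s.2) +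
    (prb f a s.1 - min (prb f a s.1) (prb f' a s.2)) * φ (nxt f a s.1, s.2) +
    (prb f' a s.2 - min (prb f a s.1) (prb f' a s.2)) * φ (s.1, nxt f' a s.2) +
    (1 - max (prb f a s.1) (prb f' a s.2)) * φ (s.1, s.2)
  map_add' φ ψ := by funext S; simp only [Pi.add_apply]; ring
  map_smul' c φ := by funext S; simp only [Pi.smul_apply, smul_eq_mul, RingHom.id_apply]; ring

theorem stepC_apply (f f' : Fin m → ℝ) (a : Arrival m) (φ : Finset (Fin m) × Finset (Fin m) → ℝ)
    (s : Finset (Fin m) × Finset (Fin m)) :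
    stepC f f' a φ s =
    min (prb f a s.1) (prb f' a s.2) * φ (nxt f a s.1, nxt f' a s.2) +
    (prb f a s.1 - min (prb f a s.1) (prb f' a s.2)) * φ (nxt f a s.1, s.2) +
    (prb f' a s.2 - min (prb f a s.1) (prb f' a s.2)) * φ (s.1, nxt f' a s.2) +
    (1 - max (prb f a s.1) (prb f' a s.2)) * φ (s.1, s.2) := rfl

theorem max_eq_sub (x y : ℝ) : max x y = x + y - min x y := by
  rcases le_total x y with h | h
  · rw [max_eq_right h, min_eq_left h]; ring
  · rw [max_eq_left h, min_eq_right h]; ring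

theorem stepC_fst (f f' : Fin m → ℝ) (a : Arrival m) (φ : Finset (Fin m) → ℝ) :
    stepC f f' a (fun s => φ s.1) = fun s => stepG f a φ s.1 := by
  funext s
  rw [stepC_apply, stepG_apply, max_eq_sub]
  ring

theorem stepC_snd (f f' : Fin m → ℝ) (a : Arrival m) (φ : Finset (Fin m) → ℝ) :
    stepC f f' a (fun s => φ s.2) = fun s => stepG f' a φ s.2 := by
  funext s
  rw [stepC_apply, stepG_apply, max_eq_sub]
  ring

/-- expectation functional at time `t` -/
noncomputable def Ex {σ A : Type*} (step : A → (σ → ℝ) →ₗ[ℝ] (σ → ℝ)) (a : ℕ → A) :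
    ℕ → (σ → ℝ) →ₗ[ℝ] (σ → ℝ)
  | 0 => LinearMap.id
  | t + 1 => (Ex step a t).comp (step (a t))

theorem Ex_zero {σ A : Type*} (step : A → (σ → ℝ) →ₗ[ℝ] (σ → ℝ)) (a : ℕ → A) (φ : σ → ℝ) :
    Ex step a 0 φ = φ := rfl

theorem Ex_succ {σ A : Type*} (step : A → (σ → ℝ) →ₗ[ℝ] (σ → ℝ)) (a : ℕ → A) (t : ℕ)
    (φ : σ → ℝ) : Ex step a (t + 1) φ = Ex step a t (step (a t) φ) := rfl

/-- unrolling at the start -/
theorem Ex_succ' {σ A : Type*} (step : A → (σ → ℝ) →ₗ[ℝ] (σ → ℝ)) (a : ℕ → A) (t : ℕ) :
    ∀ φ : σ → ℝ, Ex step a (t + 1) φ = step (a 0) (Ex step (fun n => a (n + 1)) t φ) := by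
  induction t with
  | zero => intro φ; rw [Ex_succ, Ex_zero, Ex_zero]
  | succ t ih =>
    intro φ
    rw [Ex_succ, ih, Ex_succ]

theorem Ex_mono {σ A : Type*} (step : A → (σ → ℝ) →ₗ[ℝ] (σ → ℝ)) (a : ℕ → A) (Inv : σ → Prop)
    (hstep : ∀ b : A, ∀ φ ψ : σ → ℝ, (∀ s, Inv s → φ s ≤ ψ s) → ∀ s, Inv s →
      step b φ s ≤ step b ψ s) (t : ℕ) :
    ∀ φ ψ : σ → ℝ, (∀ s, Inv s → φ s ≤ ψ s) → ∀ s, Inv s →
      Ex step a t φ s ≤ Ex step a t ψ s := by
  induction t with
  | zero => intro φ ψ h s hs; rw [Ex_zero, Ex_zero]; exact h s hs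
  | succ t ih =>
    intro φ ψ h s hs
    rw [Ex_succ, Ex_succ]
    exact ih _ _ (fun s hs => hstep _ φ ψ h s hs) s hs

theorem Ex_fst (f f' : Fin m → ℝ) (a : ℕ → Arrival m) (t : ℕ) : ∀ φ : Finset (Fin m) → ℝ,
    Ex (stepC f f') a t (fun s => φ s.1) = fun s => Ex (stepG f) a t φ s.1 := by
  induction t with
  | zero => intro φ; rw [Ex_zero, Ex_zero]
  | succ t ih =>
    intro φ
    rw [Ex_succ, stepC_fst, ih, Ex_succ]

theorem Ex_snd (f f' : Fin m → ℝ) (a : ℕ → Arrival m) (t : ℕ) : ∀ φ : Finset (Fin m) → ℝ,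
    Ex (stepC f f') a t (fun s => φ s.2) = fun s => Ex (stepG f') a t φ s.2 := by
  induction t with
  | zero => intro φ; rw [Ex_zero, Ex_zero]
  | succ t ih =>
    intro φ
    rw [Ex_succ, stepC_snd, ih, Ex_succ]

theorem stepG_mono (f : Fin m → ℝ) (a : Arrival m) {φ ψ : Finset (Fin m) → ℝ}
    (h : ∀ S, φ S ≤ ψ S) (S : Finset (Fin m)) : stepG f a φ S ≤ stepG f a ψ S := by
  rw [stepG_apply, stepG_apply]
  have h0 := prb_nonneg f a S
  have h1 := prb_le_one f a S
  have e1 := mul_le_mul_of_nonneg_left (h (nxt f a S)) h0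
  have e2 := mul_le_mul_of_nonneg_left (h S) (sub_nonneg.mpr h1)
  linarith

theorem ExG_mono (f : Fin m → ℝ) (a : ℕ → Arrival m) (t : ℕ) {φ ψ : Finset (Fin m) → ℝ}
    (h : ∀ S, φ S ≤ ψ S) (S : Finset (Fin m)) : Ex (stepG f) a t φ S ≤ Ex (stepG f) a t ψ S :=
  Ex_mono (stepG f) a (fun _ => True)
    (fun b φ ψ h s _ => stepG_mono f b (fun s => h s trivial) s) t φ ψ (fun s _ => h s) S trivial

theorem stepG_one (f : Fin m → ℝ) (a : Arrival m) : stepG f a (fun _ => 1) = fun _ => 1 := by
  funext S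
  rw [stepG_apply]; ring

theorem ExG_one (f : Fin m → ℝ) (a : ℕ → Arrival m) (t : ℕ) :
    Ex (stepG f) a t (fun _ => 1) = fun _ => 1 := by
  induction t with
  | zero => rfl
  | succ t ih => rw [Ex_succ, stepG_one, ih]

/-! ### The invariant of the coupled chain -/

/-- the second coordinate is contained in the first one and misses `v` -/
def Inv (v : Fin m) (s : Finset (Fin m) × Finset (Fin m)) : Prop := s.2 ⊆ s.1 ∧ v ∉ s.2

section coupled

variable {f f' : Fin m → ℝ} {v : Fin m} (hf : ∀ w, w ≠ v → f' w = f w)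
include hf

theorem agree {s : Finset (Fin m) × Finset (Fin m)} (hs : Inv v s) : ∀ w ∈ s.2, f' w = f w :=
  fun w hw => hf w (fun h => hs.2 (h ▸ hw))

/-- monotonicity of the coupled step on the invariant -/
theorem stepC_mono (a : Arrival m) {φ ψ : Finset (Fin m) × Finset (Fin m) → ℝ}
    (h : ∀ s, Inv v s → φ s ≤ ψ s) (s : Finset (Fin m) × Finset (Fin m)) (hs : Inv v s) :
    stepC f f' a φ s ≤ stepC f f' a ψ s := by
  obtain ⟨S, S'⟩ := s
  have hag := agree hf hs
  have hsub : S' ⊆ S := hs.1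
  have hv : v ∉ S' := hs.2
  rw [stepC_apply, stepC_apply]
  dsimp only at hag ⊢
  have hP0 := prb_nonneg f a S
  have hP1 := prb_le_one f a S
  have hQ0 := prb_nonneg f' a S'
  have hQ1 := prb_le_one f' a S'
  have c1 : 0 ≤ min (prb f a S) (prb f' a S') := le_min hP0 hQ0
  have c2 : 0 ≤ prb f a S - min (prb f a S) (prb f' a S') := sub_nonneg.mpr (min_le_left _ _)
  have c3 : 0 ≤ prb f' a S' - min (prb f a S) (prb f' a S') := sub_nonneg.mpr (min_le_right _ _)
  have c4 : 0 ≤ 1 - max (prb f a S) (prb f' a S') := sub_nonneg.mpr (max_le hP1 hQ1)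
  have hsame : φ (S, S') ≤ ψ (S, S') := h _ hs
  cases hc : choice f a S with
  | none =>
    have hc' := choice_consistent_none hsub hag hc
    rw [nxt_none hc, nxt_none hc', prb_none hc, prb_none hc']
    simp only [min_self, sub_self, max_self, sub_zero, zero_mul, one_mul, zero_add]
    exact hsame
  | some w =>
    by_cases hw : w ∈ S'
    · have hc' := choice_consistent hsub hag hc hw
      rw [nxt_some hc, nxt_some hc', prb_some hc, prb_some hc']
      simp only [min_self, sub_self, max_self, zero_mul, add_zero]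
      have hn : Inv v (S.erase w, S'.erase w) :=
        ⟨Finset.erase_subset_erase _ hsub, fun h => hv (Finset.mem_of_mem_erase h)⟩
      have e1 := mul_le_mul_of_nonneg_left (h _ hn) (qq_nonneg a w)
      have e2 := mul_le_mul_of_nonneg_left hsame (sub_nonneg.mpr (qq_le_one a w))
      linarith
    · have hn1 : nxt f a S = S.erase w := nxt_some hc
      have hsub1 : S' ⊆ S.erase w := fun x hx =>
        Finset.mem_erase.mpr ⟨fun h => hw (h ▸ hx), hsub hx⟩
      have hn2 : nxt f' a S' ⊆ S' := by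
        cases hc' : choice f' a S' with
        | none => rw [nxt_none hc']
        | some u => rw [nxt_some hc']; exact Finset.erase_subset _ _
      rw [hn1]
      have i1 : Inv v (S.erase w, nxt f' a S') := ⟨hn2.trans hsub1, fun h => hv (hn2 h)⟩
      have i2 : Inv v (S.erase w, S') := ⟨hsub1, hv⟩
      have i3 : Inv v (S, nxt f' a S') := ⟨hn2.trans hsub, fun h => hv (hn2 h)⟩
      have e1 := mul_le_mul_of_nonneg_left (h _ i1) c1
      have e2 := mul_le_mul_of_nonneg_left (h _ i2) c2
      have e3 := mul_le_mul_of_nonneg_left (h _ i3) c3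
      have e4 := mul_le_mul_of_nonneg_left hsame c4
      linarith

theorem ExC_mono (a : ℕ → Arrival m) (t : ℕ) {φ ψ : Finset (Fin m) × Finset (Fin m) → ℝ}
    (h : ∀ s, Inv v s → φ s ≤ ψ s) (s : Finset (Fin m) × Finset (Fin m)) (hs : Inv v s) :
    Ex (stepC f f') a t φ s ≤ Ex (stepC f f') a t ψ s :=
  Ex_mono (stepC f f') a (Inv v) (fun b _ _ h s hs => stepC_mono hf b h s hs) t φ ψ h s hs

open Classical in
/-- the bad event `v ∈ S` but `S ≠ S' ∪ {v}`, compensated by the event that `v` is gone -/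
noncomputable def Psi (η : ℝ) (v : Fin m) (s : Finset (Fin m) × Finset (Fin m)) : ℝ :=
  if v ∈ s.1 then (if s.1 = insert v s.2 then 0 else 1) else -η

omit hf in
theorem Psi_le_one {η : ℝ} (hη : 0 ≤ η) (v : Fin m) (s : Finset (Fin m) × Finset (Fin m)) :
    Psi η v s ≤ 1 := by
  unfold Psi; split_ifs <;> linarith

omit hf in
theorem Psi_not_mem {η : ℝ} {v : Fin m} {s : Finset (Fin m) × Finset (Fin m)} (h : v ∉ s.1) :
    Psi η v s = -η := by
  unfold Psi; rw [if_neg h]

omit hf in
theorem Psi_sync {η : ℝ} {v : Fin m} {s : Finset (Fin m) × Finset (Fin m)}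
    (h : s.1 = insert v s.2) : Psi η v s = 0 := by
  unfold Psi; rw [if_pos, if_pos h]
  rw [h]; exact Finset.mem_insert_self _ _

/-- the potential decreases -/
theorem stepC_Psi {η lo hi : ℝ} (hη : 0 ≤ η) (hlo : 0 < lo) (hlohi : hi ≤ (1 + η) * lo)
    (hb : ∀ w, lo ≤ f w ∧ f w ≤ hi) (a : Arrival m)
    (s : Finset (Fin m) × Finset (Fin m)) (hs : Inv v s) :
    stepC f f' a (Psi η v) s ≤ Psi η v s := by
  obtain ⟨S, S'⟩ := s
  have hag := agree hf hs
  have hsub : S' ⊆ S := hs.1
  have hv : v ∉ S' := hs.2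
  rw [stepC_apply]
  dsimp only at hag ⊢
  have hP0 := prb_nonneg f a S
  have hP1 := prb_le_one f a S
  have hQ0 := prb_nonneg f' a S'
  have hQ1 := prb_le_one f' a S'
  have c1 : 0 ≤ min (prb f a S) (prb f' a S') := le_min hP0 hQ0
  have c2 : 0 ≤ prb f a S - min (prb f a S) (prb f' a S') := sub_nonneg.mpr (min_le_left _ _)
  have c3 : 0 ≤ prb f' a S' - min (prb f a S) (prb f' a S') := sub_nonneg.mpr (min_le_right _ _)
  have c4 : 0 ≤ 1 - max (prb f a S) (prb f' a S') := sub_nonneg.mpr (max_le hP1 hQ1)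
  have hn1 : nxt f a S ⊆ S := by
    cases hc' : choice f a S with
    | none => rw [nxt_none hc']
    | some u => rw [nxt_some hc']; exact Finset.erase_subset _ _
  by_cases hvS : v ∈ S
  swap
  · rw [Psi_not_mem (s := (nxt f a S, nxt f' a S')) (fun h => hvS (hn1 h)),
      Psi_not_mem (s := (nxt f a S, S')) (fun h => hvS (hn1 h)),
      Psi_not_mem (s := (S, nxt f' a S')) hvS, Psi_not_mem (s := (S, S')) hvS, max_eq_sub]
    apply le_of_eq; ring
  by_cases hsync : S = insert v S'
  swap
  · have e0 : Psi η v (S, S') = 1 := by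
      unfold Psi; rw [if_pos hvS, if_neg hsync]
    have e1 := mul_le_mul_of_nonneg_left (Psi_le_one hη v (nxt f a S, nxt f' a S')) c1
    have e2 := mul_le_mul_of_nonneg_left (Psi_le_one hη v (nxt f a S, S')) c2
    have e3 := mul_le_mul_of_nonneg_left (Psi_le_one hη v (S, nxt f' a S')) c3
    rw [e0]
    rw [max_eq_sub] at c4 ⊢
    linarith
  -- synchronised state
  have e0 : Psi η v (S, S') = 0 := Psi_sync hsync
  rw [e0, mul_zero, add_zero]
  cases hc : choice f a S with
  | none =>
    have hc' := choice_consistent_none hsub hag hc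
    rw [nxt_none hc, nxt_none hc', prb_none hc, prb_none hc', e0]
    simp
  | some w =>
    by_cases hwv : w = v
    · subst hwv
      have hnx : nxt f a S = S' := by
        rw [nxt_some hc, hsync, Finset.erase_insert hv]
      have hn2 : nxt f' a S' ⊆ S' := by
        cases hc' : choice f' a S' with
        | none => rw [nxt_none hc']
        | some u => rw [nxt_some hc']; exact Finset.erase_subset _ _
      rw [hnx, Psi_not_mem (s := (S', nxt f' a S')) hv, Psi_not_mem (s := (S', S')) hv]
      have hb1 := mul_le_mul_of_nonneg_left (Psi_le_one hη w (S, nxt f' a S')) c3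
      -- bound on the second probability
      have key : prb f' a S' ≤ (1 + η) * prb f a S := by
        cases hc' : choice f' a S' with
        | none => rw [prb_none hc']; exact mul_nonneg (by linarith) hP0
        | some u =>
          have hu := (choice_eq_some.mp hc').1
          have h1 : qq a u * f' u ≤ qq a w * f w := by
            rw [hag u hu, ← val_some hc]
            exact le_val (hsub hu)
          rw [prb_some hc', prb_some hc]
          have h2 : qq a u * lo ≤ qq a w * hi := by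
            calc qq a u * lo ≤ qq a u * f' u := by
                  rw [hag u hu]
                  exact mul_le_mul_of_nonneg_left (hb u).1 (qq_nonneg a u)
              _ ≤ qq a w * f w := h1
              _ ≤ qq a w * hi := mul_le_mul_of_nonneg_left (hb w).2 (qq_nonneg a w)
          have h3 : qq a w * hi ≤ qq a w * ((1 + η) * lo) :=
            mul_le_mul_of_nonneg_left hlohi (qq_nonneg a w)
          have h4 : qq a u * lo ≤ ((1 + η) * qq a w) * lo := by nlinarith
          exact le_of_mul_le_mul_right h4 hlo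
      rcases le_total (prb f a S) (prb f' a S') with hle | hle
      · rw [min_eq_left hle] at hb1 ⊢
        nlinarith
      · rw [min_eq_right hle] at hb1 ⊢
        nlinarith [mul_nonneg hη hP0, mul_nonneg hη hQ0]
    · have hwS := (choice_eq_some.mp hc).1
      have hwS' : w ∈ S' := by
        rw [hsync] at hwS
        rcases Finset.mem_insert.mp hwS with h | h
        · exact absurd h hwv
        · exact h
      have hc' := choice_consistent hsub hag hc hwS'
      have hs2 : S.erase w = insert v (S'.erase w) := by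
        rw [hsync, Finset.erase_insert_of_ne (Ne.symm hwv)]
      rw [nxt_some hc, nxt_some hc', prb_some hc, prb_some hc',
        Psi_sync (s := (S.erase w, S'.erase w)) hs2]
      simp

theorem ExC_Psi {η lo hi : ℝ} (hη : 0 ≤ η) (hlo : 0 < lo) (hlohi : hi ≤ (1 + η) * lo)
    (hb : ∀ w, lo ≤ f w ∧ f w ≤ hi) (a : ℕ → Arrival m) (t : ℕ)
    (s : Finset (Fin m) × Finset (Fin m)) (hs : Inv v s) :
    Ex (stepC f f') a t (Psi η v) s ≤ Psi η v s := by
  induction t with
  | zero => rw [Ex_zero]
  | succ t ih =>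
    rw [Ex_succ]
    refine le_trans (ExC_mono hf a t (fun s hs => ?_) s hs) ih
    exact stepC_Psi hf hη hlo hlohi hb (a t) s hs

end coupled

end Pool.Agent.helper61.OSR
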