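import Mathlib

/-!
# Online bipartite matching with stochastic rewards: the model

Offline vertices are `Fin m`.  Online vertices arrive one after the other; each arrival reveals its
neighbours and the success probabilities of its edges.
-/

namespace Pool.Agent.helper61.OSR

/-- An arriving online vertex: its set of neighbours among the offline vertices `Fin m`, and the
success probabilities of its edges (the values of `p` outside `nbr` play no role). -/
structure Arrival (m : ℕ) where
  nbr : Finset (Fin m)
  p : Fin m → ℝ
  p_nonneg : ∀ v, 0 ≤ p v
  p_le_one : ∀ v, p v ≤ 1

/-- The record of one step: the arrival, the offline vertex it was matched to (`none` if it was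
skipped), and whether this match succeeded. -/
structure Step (m : ℕ) where
  arrival : Arrival m
  choice : Option (Fin m)
  success : Bool

/-- A history: the records of the past steps, the most recent one first. -/
abbrev History (m : ℕ) := List (Step m)

open Classical in
/-- The offline vertices consumed so far: those with a successful match in the history. -/
noncomputable def consumed {m : ℕ} (h : History m) : Finset (Fin m) :=
  Finset.univ.filter fun v => ∃ e ∈ h, e.choice = some v ∧ e.success = true

/-- A deterministic strategy: given the history (all past arrivals, decisions and outcomes) and the
current arrival, it skips (`none`) or matches the current arrival to an available neighbour. -/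
structure Strategy (m : ℕ) where
  act : History m → Arrival m → Option (Fin m)
  legal : ∀ h a v, act h a = some v → v ∈ a.nbr ∧ v ∉ consumed h

/-- Expected reward collected by the strategy on the remaining arrivals, after the history `h`:
a match along an edge of probability `p` succeeds with probability `p`, independently of
everything else, and then pays `1` and consumes the offline vertex. -/
noncomputable def Strategy.reward {m : ℕ} (σ : Strategy m) : List (Arrival m) → History m → ℝ
  | [], _ => 0
  | a :: rest, h =>
    match σ.act h a with
    | none => σ.reward rest (⟨a, none, false⟩ :: h)
    | some v =>
      a.p v * (1 + σ.reward rest (⟨a, some v, true⟩ :: h)) +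
        (1 - a.p v) * σ.reward rest (⟨a, some v, false⟩ :: h)

/-- `OPT(I)`: the supremum of the expected reward over all policies that know the whole instance
`I` in advance (they are chosen after `I`), but learn each outcome only after the match, process
the arrivals in order and obey the same rules. -/
noncomputable def OPT {m : ℕ} (I : List (Arrival m)) : ℝ :=
  ⨆ σ : Strategy m, σ.reward I []

/-- A randomised online algorithm: for every number `m` of offline vertices (which are known in
advance) a probability distribution on a finite set of seeds, and for every seed a strategy.  The
strategies do not depend on the instance. -/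
structure OnlineAlgorithm where
  Seed : ℕ → Type
  seedFintype : ∀ m, Fintype (Seed m)
  weight : ∀ m, Seed m → ℝ
  weight_nonneg : ∀ m s, 0 ≤ weight m s
  weight_sum : ∀ m, (Finset.sum (@Finset.univ (Seed m) (seedFintype m)) fun s => weight m s) = 1
  strategy : ∀ m, Seed m → Strategy m

/-- `E[A(I)]`: the expected reward of the randomised online algorithm on the instance `I`. -/
noncomputable def OnlineAlgorithm.expectedReward (A : OnlineAlgorithm) {m : ℕ}
    (I : List (Arrival m)) : ℝ :=
  Finset.sum (@Finset.univ (A.Seed m) (A.seedFintype m)) fun s =>
    A.weight m s * (A.strategy m s).reward I []

/-- The competitive ratio: the infimum of `E[A(I)] / OPT(I)` over all instances with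
`OPT(I) > 0`. -/
noncomputable def OnlineAlgorithm.competitiveRatio (A : OnlineAlgorithm) : ℝ :=
  sInf {ρ : ℝ | ∃ (m : ℕ) (I : List (Arrival m)), 0 < OPT I ∧ ρ = A.expectedReward I / OPT I}

/-- A feasible solution of the standard linear programming relaxation of the instance `I`:
`x t v` is (a relaxation of) the probability that the `t`-th arrival is matched to `v`; every
arrival is matched at most once and every offline vertex is consumed at most once in
expectation. -/
structure LPFeasible {m : ℕ} (I : List (Arrival m)) (x : Fin I.length → Fin m → ℝ) : Prop where
  nonneg : ∀ t v, 0 ≤ x t v
  support : ∀ t v, v ∉ (I.get t).nbr → x t v = 0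
  online : ∀ t, ∑ v, x t v ≤ 1
  offline : ∀ v, ∑ t, (I.get t).p v * x t v ≤ 1

/-- The value of a solution of the relaxation. -/
noncomputable def LPvalue {m : ℕ} (I : List (Arrival m)) (x : Fin I.length → Fin m → ℝ) : ℝ :=
  ∑ t, ∑ v, (I.get t).p v * x t v

end Pool.Agent.helper61.OSR
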