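import Pool.Agent.helper61.OSR.Defs

/-! # The greedy choice -/

namespace Pool.Agent.helper61.OSR

variable {m : ℕ}

open Classical in
/-- effective probability: `0` outside the neighbourhood -/
noncomputable def qq (a : Arrival m) (v : Fin m) : ℝ := if v ∈ a.nbr then a.p v else 0

theorem qq_nonneg (a : Arrival m) (v : Fin m) : 0 ≤ qq a v := by
  unfold qq; split_ifs
  · exact a.p_nonneg v
  · exact le_refl _

theorem qq_le_one (a : Arrival m) (v : Fin m) : qq a v ≤ 1 := by
  unfold qq; split_ifs
  · exact a.p_le_one v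
  · norm_num

theorem qq_of_mem {a : Arrival m} {v : Fin m} (h : v ∈ a.nbr) : qq a v = a.p v := by
  unfold qq; rw [if_pos h]

theorem mem_of_qq_pos {a : Arrival m} {v : Fin m} (h : 0 < qq a v) : v ∈ a.nbr := by
  unfold qq at h
  by_contra hc
  rw [if_neg hc] at h
  exact lt_irrefl _ h

/-- `v` is the best choice in `S` -/
def IsBest (f : Fin m → ℝ) (a : Arrival m) (S : Finset (Fin m)) (v : Fin m) : Prop :=
  v ∈ S ∧ 0 < qq a v * f v ∧
    ∀ w ∈ S, w ≠ v → qq a w * f w < qq a v * f v ∨ (qq a w * f w = qq a v * f v ∧ v < w)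

theorem IsBest.unique {f : Fin m → ℝ} {a : Arrival m} {S : Finset (Fin m)} {v w : Fin m}
    (hv : IsBest f a S v) (hw : IsBest f a S w) : v = w := by
  by_contra hne
  rcases hv.2.2 w hw.1 (Ne.symm hne) with h1 | h1 <;>
  rcases hw.2.2 v hv.1 hne with h2 | h2
  · exact absurd (h1.trans h2) (lt_irrefl _)
  · rw [h2.1] at h1; exact lt_irrefl _ h1
  · rw [h1.1] at h2; exact lt_irrefl _ h2
  · exact absurd (h1.2.trans h2.2) (lt_irrefl _)

theorem exists_best {f : Fin m → ℝ} {a : Arrival m} {S : Finset (Fin m)}
    (h : ∃ v ∈ S, 0 < qq a v * f v) : ∃ v, IsBest f a S v := by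
  classical
  obtain ⟨v0, hv0, hpos⟩ := h
  obtain ⟨u, hu, hmax⟩ := Finset.exists_max_image S (fun v => qq a v * f v) ⟨v0, hv0⟩
  set T := S.filter (fun v => qq a v * f v = qq a u * f u) with hT
  have hTne : T.Nonempty := ⟨u, by rw [hT, Finset.mem_filter]; exact ⟨hu, rfl⟩⟩
  refine ⟨T.min' hTne, ?_⟩
  have hmem := T.min'_mem hTne
  set t := T.min' hTne with ht
  rw [hT, Finset.mem_filter] at hmem
  refine ⟨hmem.1, ?_, ?_⟩
  · rw [hmem.2]
    exact lt_of_lt_of_le hpos (hmax v0 hv0)
  · intro w hw hne
    rcases lt_or_eq_of_le (hmax w hw) with h1 | h1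
    · left; rw [hmem.2]; exact h1
    · right
      refine ⟨h1.trans hmem.2.symm, ?_⟩
      have hwT : w ∈ T := by rw [hT, Finset.mem_filter]; exact ⟨hw, h1⟩
      exact lt_of_le_of_ne (T.min'_le w hwT) (Ne.symm hne)

open Classical in
/-- the greedy choice -/
noncomputable def choice (f : Fin m → ℝ) (a : Arrival m) (S : Finset (Fin m)) : Option (Fin m) :=
  if h : ∃ v, IsBest f a S v then some (Classical.choose h) else none

theorem choice_eq_some {f : Fin m → ℝ} {a : Arrival m} {S : Finset (Fin m)} {v : Fin m} :
    choice f a S = some v ↔ IsBest f a S v := by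
  unfold choice
  split_ifs with h
  · rw [Option.some.injEq]
    constructor
    · intro hv; rw [← hv]; exact Classical.choose_spec h
    · intro hv; exact (Classical.choose_spec h).unique hv
  · constructor
    · intro hv; exact absurd hv (by simp)
    · intro hv; exact absurd ⟨v, hv⟩ h

theorem choice_eq_none {f : Fin m → ℝ} {a : Arrival m} {S : Finset (Fin m)} :
    choice f a S = none ↔ ∀ v ∈ S, qq a v * f v ≤ 0 := by
  constructor
  · intro h v hv
    by_contra hc
    push Not at hc
    obtain ⟨u, hu⟩ := exists_best ⟨v, hv, hc⟩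
    rw [choice_eq_some.mpr hu] at h
    exact absurd h (by simp)
  · intro h
    cases hc : choice f a S with
    | none => rfl
    | some v =>
      have hb := choice_eq_some.mp hc
      exact absurd (h v hb.1) (not_le.mpr hb.2.1)

/-- value, success probability and next state of the greedy choice -/
noncomputable def val (f : Fin m → ℝ) (a : Arrival m) (S : Finset (Fin m)) : ℝ :=
  match choice f a S with
  | none => 0
  | some v => qq a v * f v

noncomputable def prb (f : Fin m → ℝ) (a : Arrival m) (S : Finset (Fin m)) : ℝ :=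
  match choice f a S with
  | none => 0
  | some v => qq a v

open Classical in
noncomputable def nxt (f : Fin m → ℝ) (a : Arrival m) (S : Finset (Fin m)) : Finset (Fin m) :=
  match choice f a S with
  | none => S
  | some v => S.erase v

theorem val_none {f : Fin m → ℝ} {a : Arrival m} {S : Finset (Fin m)}
    (h : choice f a S = none) : val f a S = 0 := by unfold val; rw [h]
theorem val_some {f : Fin m → ℝ} {a : Arrival m} {S : Finset (Fin m)} {v : Fin m}
    (h : choice f a S = some v) : val f a S = qq a v * f v := by unfold val; rw [h]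
theorem prb_none {f : Fin m → ℝ} {a : Arrival m} {S : Finset (Fin m)}
    (h : choice f a S = none) : prb f a S = 0 := by unfold prb; rw [h]
theorem prb_some {f : Fin m → ℝ} {a : Arrival m} {S : Finset (Fin m)} {v : Fin m}
    (h : choice f a S = some v) : prb f a S = qq a v := by unfold prb; rw [h]
theorem nxt_none {f : Fin m → ℝ} {a : Arrival m} {S : Finset (Fin m)}
    (h : choice f a S = none) : nxt f a S = S := by unfold nxt; rw [h]
open Classical in
theorem nxt_some {f : Fin m → ℝ} {a : Arrival m} {S : Finset (Fin m)} {v : Fin m}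
    (h : choice f a S = some v) : nxt f a S = S.erase v := by
  unfold nxt; rw [h]

theorem prb_nonneg (f : Fin m → ℝ) (a : Arrival m) (S : Finset (Fin m)) : 0 ≤ prb f a S := by
  cases h : choice f a S with
  | none => rw [prb_none h]
  | some v => rw [prb_some h]; exact qq_nonneg a v

theorem prb_le_one (f : Fin m → ℝ) (a : Arrival m) (S : Finset (Fin m)) : prb f a S ≤ 1 := by
  cases h : choice f a S with
  | none => rw [prb_none h]; norm_num
  | some v => rw [prb_some h]; exact qq_le_one a v

theorem val_nonneg (f : Fin m → ℝ) (a : Arrival m) (S : Finset (Fin m)) : 0 ≤ val f a S := by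
  cases h : choice f a S with
  | none => rw [val_none h]
  | some v => rw [val_some h]; exact (choice_eq_some.mp h).2.1.le

theorem le_val {f : Fin m → ℝ} {a : Arrival m} {S : Finset (Fin m)} {v : Fin m} (hv : v ∈ S) :
    qq a v * f v ≤ val f a S := by
  cases h : choice f a S with
  | none => rw [val_none h]; exact choice_eq_none.mp h v hv
  | some w =>
    rw [val_some h]
    by_cases hvw : v = w
    · rw [hvw]
    · rcases (choice_eq_some.mp h).2.2 v hv hvw with h1 | h1
      · exact h1.le
      · exact h1.1.le

/-- monotonicity -/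
theorem val_mono {f f' : Fin m → ℝ} {a : Arrival m} {S S' : Finset (Fin m)} (hS : S' ⊆ S)
    (hf : ∀ w ∈ S', f' w = f w) : val f' a S' ≤ val f a S := by
  cases h : choice f' a S' with
  | none => rw [val_none h]; exact val_nonneg _ _ _
  | some w =>
    rw [val_some h]
    have hw := (choice_eq_some.mp h).1
    rw [hf w hw]
    exact le_val (hS hw)

theorem choice_consistent {f f' : Fin m → ℝ} {a : Arrival m} {S S' : Finset (Fin m)} (hS : S' ⊆ S)
    (hf : ∀ w ∈ S', f' w = f w) {w : Fin m} (h : choice f a S = some w) (hw : w ∈ S') :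
    choice f' a S' = some w := by
  rw [choice_eq_some] at h ⊢
  refine ⟨hw, ?_, ?_⟩
  · rw [hf w hw]; exact h.2.1
  · intro u hu hne
    rw [hf w hw, hf u hu]
    exact h.2.2 u (hS hu) hne

theorem choice_consistent_none {f f' : Fin m → ℝ} {a : Arrival m} {S S' : Finset (Fin m)}
    (hS : S' ⊆ S) (hf : ∀ w ∈ S', f' w = f w) (h : choice f a S = none) :
    choice f' a S' = none := by
  rw [choice_eq_none] at h ⊢
  intro v hv
  rw [hf v hv]
  exact h v (hS hv)

/-- if the value of `v` beats the value of `S'`, then `v` is chosen in `insert v S'` -/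
theorem choice_insert {f f' : Fin m → ℝ} {a : Arrival m} {S' : Finset (Fin m)} {v : Fin m}
    (hf : ∀ w ∈ S', f' w = f w) (hlt : val f' a S' < qq a v * f v) :
    choice f a (insert v S') = some v := by
  rw [choice_eq_some]
  refine ⟨Finset.mem_insert_self _ _, lt_of_le_of_lt (val_nonneg _ _ _) hlt, ?_⟩
  intro w hw hne
  left
  have hw' : w ∈ S' := by
    rcases Finset.mem_insert.mp hw with h | h
    · exact absurd h hne
    · exact h
  calc qq a w * f w = qq a w * f' w := by rw [hf w hw']
    _ ≤ val f' a S' := le_val hw'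
    _ < _ := hlt

end Pool.Agent.helper61.OSR
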