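import Pool.Agent.helper61.OSR.PerVertex

/-! # The algorithm and the proof of the main theorem -/

namespace Pool.Agent.helper61.OSR

open Finset

variable {m : ℕ}

/-! ### The greedy strategy and its reward -/

/-- available vertices -/
noncomputable def avail (h : History m) : Finset (Fin m) := univ \ consumed h

theorem mem_consumed {h : History m} {v : Fin m} :
    v ∈ consumed h ↔ ∃ e ∈ h, e.choice = some v ∧ e.success = true := by
  unfold consumed
  rw [mem_filter]
  exact ⟨fun h => h.2, fun h => ⟨mem_univ _, h⟩⟩

theorem consumed_none (a : Arrival m) (c : Option (Fin m)) (h : History m) :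
    consumed (⟨a, c, false⟩ :: h) = consumed h := by
  ext v
  rw [mem_consumed, mem_consumed]
  constructor
  · rintro ⟨e, he, h1, h2⟩
    rcases List.mem_cons.mp he with h3 | h3
    · rw [h3] at h2; exact absurd h2 (by simp)
    · exact ⟨e, h3, h1, h2⟩
  · rintro ⟨e, he, h1, h2⟩
    exact ⟨e, List.mem_cons_of_mem _ he, h1, h2⟩

theorem mem_consumed_some (a : Arrival m) (w : Fin m) (h : History m) (v : Fin m) :
    v ∈ consumed (⟨a, some w, true⟩ :: h) ↔ v = w ∨ v ∈ consumed h := by
  rw [mem_consumed, mem_consumed]
  constructor
  · rintro ⟨e, he, h1, h2⟩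
    rcases List.mem_cons.mp he with h3 | h3
    · left
      rw [h3] at h1
      exact (Option.some.inj h1).symm
    · right; exact ⟨e, h3, h1, h2⟩
  · rintro (h1 | ⟨e, he, h1, h2⟩)
    · exact ⟨_, List.mem_cons_self, by rw [h1], rfl⟩
    · exact ⟨e, List.mem_cons_of_mem _ he, h1, h2⟩

theorem mem_avail {h : History m} {v : Fin m} : v ∈ avail h ↔ v ∉ consumed h := by
  unfold avail
  rw [mem_sdiff]
  exact ⟨fun h => h.2, fun h => ⟨mem_univ _, h⟩⟩

theorem avail_false (a : Arrival m) (c : Option (Fin m)) (h : History m) :
    avail (⟨a, c, false⟩ :: h) = avail h := by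
  unfold avail; rw [consumed_none]

theorem avail_true (a : Arrival m) (w : Fin m) (h : History m) :
    avail (⟨a, some w, true⟩ :: h) = (avail h).erase w := by
  ext v
  rw [mem_avail, mem_consumed_some, mem_erase, mem_avail]
  push Not
  rfl

/-- the greedy strategy with level weights `f` -/
noncomputable def greedy (f : Fin m → ℝ) : Strategy m where
  act h a := choice f a (avail h)
  legal := by
    intro h a v hv
    have hb := choice_eq_some.mp hv
    refine ⟨?_, mem_avail.mp hb.1⟩
    apply mem_of_qq_pos
    rcases eq_or_lt_of_le (qq_nonneg a v) with h0 | h0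
    · have := hb.2.1
      rw [← h0, zero_mul] at this
      exact absurd this (lt_irrefl _)
    · exact h0

noncomputable def RR (f : Fin m → ℝ) : List (Arrival m) → Finset (Fin m) → ℝ
  | [], _ => 0
  | a :: rest, S => prb f a S + stepG f a (RR f rest) S

theorem reward_greedy (f : Fin m → ℝ) (I : List (Arrival m)) :
    ∀ h : History m, (greedy f).reward I h = RR f I (avail h) := by
  induction I with
  | nil => intro h; rfl
  | cons a rest ih =>
    intro h
    rw [Strategy.reward, RR, stepG_apply]
    have hact : (greedy f).act h a = choice f a (avail h) := rfl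
    rw [hact]
    cases hc : choice f a (avail h) with
    | none =>
      rw [prb_none hc, nxt_none hc]
      dsimp only
      rw [ih, avail_false]
      ring
    | some v =>
      rw [prb_some hc, nxt_some hc]
      dsimp only
      have hb := choice_eq_some.mp hc
      have hmem := ((greedy f).legal h a v hc).1
      rw [ih, ih, avail_false, avail_true, qq_of_mem hmem]
      ring

/-- default arrival without neighbours -/
def emptyArrival (m : ℕ) : Arrival m where
  nbr := ∅
  p := fun _ => 0
  p_nonneg := fun _ => le_refl _
  p_le_one := fun _ => by norm_num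

/-- the `t`-th arrival -/
def arr (I : List (Arrival m)) (t : ℕ) : Arrival m := I.getD t (emptyArrival m)

theorem arr_cons_zero (a : Arrival m) (I : List (Arrival m)) : arr (a :: I) 0 = a := rfl
theorem arr_cons_succ (a : Arrival m) (I : List (Arrival m)) (t : ℕ) :
    arr (a :: I) (t + 1) = arr I t := rfl

theorem RR_eq (f : Fin m → ℝ) (I : List (Arrival m)) :
    RR f I = ∑ t ∈ range I.length, Ex (stepG f) (arr I) t (prb f (arr I t)) := by
  induction I with
  | nil => rfl
  | cons a rest ih =>
    rw [List.length_cons, sum_range_succ']
    have h1 : ∀ t ∈ range rest.length, Ex (stepG f) (arr (a :: rest)) (t + 1)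
        (prb f (arr (a :: rest) (t + 1))) =
        stepG f a (Ex (stepG f) (arr rest) t (prb f (arr rest t))) := by
      intro t _
      rw [Ex_succ']
      rfl
    rw [sum_congr rfl h1, ← map_sum, ← ih, Ex_zero, arr_cons_zero]
    funext S
    rw [RR, Pi.add_apply, add_comm]

theorem prb_split (f : Fin m → ℝ) (a : Arrival m) :
    prb f a = val f a + ∑ v : Fin m, ((1 - f v) * qq a v) •
      (fun S => ind (choice f a S = some v)) := by
  funext S
  rw [Pi.add_apply, Finset.sum_apply]
  simp only [Pi.smul_apply, smul_eq_mul]
  cases hc : choice f a S with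
  | none =>
    rw [prb_none hc, val_none hc, Finset.sum_eq_zero]
    · ring
    · intro v _
      rw [ind_neg (by simp)]; ring
  | some w =>
    rw [prb_some hc, val_some hc, Finset.sum_eq_single w]
    · rw [ind_pos rfl]; ring
    · intro v _ hne
      rw [ind_neg (fun h => hne (Option.some.inj h).symm)]; ring
    · intro h; exact absurd (mem_univ w) h

theorem total_split (f : Fin m → ℝ) (a : ℕ → Arrival m) (n : ℕ) :
    ∑ t ∈ range n, Ex (stepG f) a t (prb f (a t)) univ =
      ∑ t ∈ range n, lam f a t + ∑ v : Fin m, (1 - f v) * (1 - avl f a v n) := by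
  have h1 : ∀ t, Ex (stepG f) a t (prb f (a t)) univ =
      lam f a t + ∑ v : Fin m, (1 - f v) * (avl f a v t - avl f a v (t + 1)) := by
    intro t
    rw [prb_split, map_add, map_sum, Pi.add_apply, Finset.sum_apply]
    congr 1
    apply sum_congr rfl
    intro v _
    rw [map_smul, Pi.smul_apply, smul_eq_mul, avl_succ]
    unfold chs
    ring
  rw [sum_congr rfl (fun t _ => h1 t), sum_add_distrib, sum_comm]
  congr 1
  apply sum_congr rfl
  intro v _
  rw [← mul_sum, Finset.sum_range_sub', avl_zero]

/-! ### The fractional solution of a policy -/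

/-- probability that the policy tries `v` at the `t`-th of the remaining arrivals -/
noncomputable def occ (σ : Strategy m) : List (Arrival m) → History m → ℕ → Fin m → ℝ
  | [], _, _, _ => 0
  | a :: _, h, 0, v => ind (σ.act h a = some v)
  | a :: rest, h, t + 1, v =>
    match σ.act h a with
    | none => occ σ rest (⟨a, none, false⟩ :: h) t v
    | some w =>
      a.p w * occ σ rest (⟨a, some w, true⟩ :: h) t v +
        (1 - a.p w) * occ σ rest (⟨a, some w, false⟩ :: h) t v

theorem occ_nonneg (σ : Strategy m) (I : List (Arrival m)) :
    ∀ (h : History m) (t : ℕ) (v : Fin m), 0 ≤ occ σ I h t v := by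
  induction I with
  | nil => intro h t v; rw [occ]
  | cons a rest ih =>
    intro h t v
    cases t with
    | zero => rw [occ]; exact ind_nonneg _
    | succ t =>
      rw [occ]
      cases σ.act h a with
      | none => exact ih _ _ _
      | some w =>
        exact add_nonneg (mul_nonneg (a.p_nonneg w) (ih _ _ _))
          (mul_nonneg (sub_nonneg.mpr (a.p_le_one w)) (ih _ _ _))

theorem sum_ind_some (c : Option (Fin m)) (g : Fin m → ℝ) :
    ∑ v : Fin m, g v * ind (c = some v) = match c with | none => 0 | some w => g w := by
  cases c with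
  | none =>
    apply Finset.sum_eq_zero
    intro v _
    rw [ind_neg (by simp)]; ring
  | some w =>
    dsimp only
    rw [Finset.sum_eq_single w]
    · rw [ind_pos rfl]; ring
    · intro v _ hne
      rw [ind_neg (fun h => hne (Option.some.inj h).symm)]; ring
    · intro h; exact absurd (mem_univ w) h

theorem occ_sum_le (σ : Strategy m) (I : List (Arrival m)) :
    ∀ (h : History m) (t : ℕ), ∑ v : Fin m, occ σ I h t v ≤ 1 := by
  induction I with
  | nil =>
    intro h t
    simp only [occ]
    rw [Finset.sum_const_zero]; norm_num
  | cons a rest ih =>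
    intro h t
    cases t with
    | zero =>
      simp only [occ]
      have h1 := sum_ind_some (σ.act h a) (fun _ => (1 : ℝ))
      simp only [one_mul] at h1
      rw [h1]
      cases σ.act h a with
      | none => norm_num
      | some w => norm_num
    | succ t =>
      simp only [occ]
      cases σ.act h a with
      | none => exact ih _ _
      | some w =>
        dsimp only
        rw [sum_add_distrib, ← mul_sum, ← mul_sum]
        have e1 := mul_le_mul_of_nonneg_left (ih (⟨a, some w, true⟩ :: h) t) (a.p_nonneg w)
        have e2 := mul_le_mul_of_nonneg_left (ih (⟨a, some w, false⟩ :: h) t)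
          (sub_nonneg.mpr (a.p_le_one w))
        linarith

theorem occ_le_one (σ : Strategy m) (I : List (Arrival m)) (h : History m) (t : ℕ) (v : Fin m) :
    occ σ I h t v ≤ 1 :=
  le_trans (Finset.single_le_sum (fun v _ => occ_nonneg σ I h t v) (mem_univ v))
    (occ_sum_le σ I h t)

theorem reward_eq_occ (σ : Strategy m) (I : List (Arrival m)) :
    ∀ h : History m, σ.reward I h =
      ∑ v : Fin m, ∑ t ∈ range I.length, qq (arr I t) v * occ σ I h t v := by
  induction I with
  | nil => intro h; rw [Strategy.reward]; simp
  | cons a rest ih =>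
    intro h
    rw [Strategy.reward]
    have h0 : ∑ v : Fin m, ∑ t ∈ range (a :: rest).length,
        qq (arr (a :: rest) t) v * occ σ (a :: rest) h t v =
        (∑ v : Fin m, ∑ t ∈ range rest.length,
          qq (arr rest t) v * occ σ (a :: rest) h (t + 1) v) +
        ∑ v : Fin m, qq a v * ind (σ.act h a = some v) := by
      rw [← sum_add_distrib]
      apply sum_congr rfl
      intro v _
      rw [List.length_cons, sum_range_succ']
      rfl
    rw [h0, sum_ind_some]
    simp only [occ]
    cases hc : σ.act h a with
    | none =>
      dsimp only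
      rw [ih, add_zero]
    | some w =>
      dsimp only
      rw [ih, ih, qq_of_mem (σ.legal h a w hc).1]
      have h1 : ∑ v : Fin m, ∑ t ∈ range rest.length, qq (arr rest t) v *
          (a.p w * occ σ rest (⟨a, some w, true⟩ :: h) t v +
          (1 - a.p w) * occ σ rest (⟨a, some w, false⟩ :: h) t v) =
          a.p w * (∑ v : Fin m, ∑ t ∈ range rest.length, qq (arr rest t) v *
            occ σ rest (⟨a, some w, true⟩ :: h) t v) +
          (1 - a.p w) * (∑ v : Fin m, ∑ t ∈ range rest.length, qq (arr rest t) v *
            occ σ rest (⟨a, some w, false⟩ :: h) t v) := by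
        simp only [mul_sum]
        rw [← sum_add_distrib]
        apply sum_congr rfl
        intro v _
        rw [← sum_add_distrib]
        apply sum_congr rfl
        intro t _
        ring
      rw [h1]
      ring

theorem occ_capacity (σ : Strategy m) (I : List (Arrival m)) :
    ∀ (h : History m) (v : Fin m),
      ∑ t ∈ range I.length, qq (arr I t) v * occ σ I h t v ≤ ind (v ∉ consumed h) := by
  induction I with
  | nil => intro h v; simpa using ind_nonneg _
  | cons a rest ih =>
    intro h v
    rw [List.length_cons, sum_range_succ']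
    have h0 : ∑ t ∈ range rest.length, qq (arr (a :: rest) (t + 1)) v *
        occ σ (a :: rest) h (t + 1) v = ∑ t ∈ range rest.length, qq (arr rest t) v *
        occ σ (a :: rest) h (t + 1) v := rfl
    have h00 : occ σ (a :: rest) h 0 v = ind (σ.act h a = some v) := rfl
    rw [h0, h00, arr_cons_zero]
    simp only [occ]
    cases hc : σ.act h a with
    | none =>
      dsimp only
      rw [ind_neg (P := (none : Option (Fin m)) = some v) (by simp), mul_zero, add_zero]
      have h1 := ih (⟨a, none, false⟩ :: h) v
      rw [consumed_none] at h1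
      exact h1
    | some w =>
      dsimp only
      have h1 := ih (⟨a, some w, true⟩ :: h) v
      have h2 := ih (⟨a, some w, false⟩ :: h) v
      rw [consumed_none] at h2
      have hleg := σ.legal h a w hc
      have e1 := mul_le_mul_of_nonneg_left h1 (a.p_nonneg w)
      have e2 := mul_le_mul_of_nonneg_left h2 (sub_nonneg.mpr (a.p_le_one w))
      have h3 : ∑ t ∈ range rest.length, qq (arr rest t) v *
          (a.p w * occ σ rest (⟨a, some w, true⟩ :: h) t v +
          (1 - a.p w) * occ σ rest (⟨a, some w, false⟩ :: h) t v) =
          a.p w * (∑ t ∈ range rest.length, qq (arr rest t) v *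
            occ σ rest (⟨a, some w, true⟩ :: h) t v) +
          (1 - a.p w) * (∑ t ∈ range rest.length, qq (arr rest t) v *
            occ σ rest (⟨a, some w, false⟩ :: h) t v) := by
        simp only [mul_sum]
        rw [← sum_add_distrib]
        apply sum_congr rfl
        intro t _
        ring
      rw [h3]
      by_cases hvw : w = v
      · subst hvw
        rw [ind_pos (P := some w = some w) rfl, ind_pos hleg.2, qq_of_mem hleg.1]
        rw [ind_neg (P := w ∉ consumed (⟨a, some w, true⟩ :: h))
          (fun hn => hn ((mem_consumed_some a w h w).mpr (Or.inl rfl)))] at e1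
        rw [ind_pos hleg.2] at e2
        linarith
      · rw [ind_neg (P := some w = some v) (fun h => hvw (Option.some.inj h))]
        have h4 : ind (v ∉ consumed (⟨a, some w, true⟩ :: h)) ≤ ind (v ∉ consumed h) := by
          by_cases hv : v ∉ consumed h
          · rw [ind_pos hv]; exact ind_le_one _
          · rw [ind_neg hv, ind_neg]
            intro hn
            apply hn
            rw [mem_consumed_some]
            right
            exact not_not.mp hv
        have e3 := mul_le_mul_of_nonneg_left h4 (a.p_nonneg w)
        linarith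

/-! ### Averaging over the levels -/

/-- probability of a level assignment -/
noncomputable def WW (b : Fin m → Bool) : ℝ := ∏ v : Fin m, if b v then (1 / 4 : ℝ) else 3 / 4

theorem WW_nonneg (b : Fin m → Bool) : 0 ≤ WW b := by
  unfold WW
  apply Finset.prod_nonneg
  intro v _
  split_ifs <;> norm_num

theorem WW_sum : ∑ b : Fin m → Bool, WW b = 1 := by
  unfold WW
  have h := Finset.prod_univ_sum (ι := Fin m) (κ := fun _ => Bool)
    (t := fun _ => (Finset.univ : Finset Bool)) (f := fun _ c => if c then (1 / 4 : ℝ) else 3 / 4)
  rw [Fintype.piFinset_univ] at h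
  rw [← h]
  apply Finset.prod_eq_one
  intro v _
  rw [Fintype.sum_bool]
  norm_num

theorem WW_update (b : Fin m → Bool) (v : Fin m) (c : Bool) :
    WW (Function.update b v c) * (if b v then (1 / 4 : ℝ) else 3 / 4) =
      WW b * (if c then (1 / 4 : ℝ) else 3 / 4) := by
  unfold WW
  rw [← Finset.mul_prod_erase univ _ (mem_univ v),
    ← Finset.mul_prod_erase univ (fun v => if b v = true then (1 / 4 : ℝ) else 3 / 4) (mem_univ v)]
  rw [Function.update_self]
  have h : ∏ x ∈ univ.erase v, (if Function.update b v c x = true then (1 / 4 : ℝ) else 3 / 4) =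
      ∏ x ∈ univ.erase v, (if b x = true then (1 / 4 : ℝ) else 3 / 4) := by
    apply prod_congr rfl
    intro w hw
    rw [Function.update_of_ne (Finset.ne_of_mem_erase hw)]
  rw [h]
  ring

/-- resampling the level of `v` -/
theorem WW_resample (v : Fin m) (F : (Fin m → Bool) → ℝ) :
    ∑ b : Fin m → Bool, WW b * (1 / 4 * F (Function.update b v true) +
      3 / 4 * F (Function.update b v false)) = ∑ b : Fin m → Bool, WW b * F b := by
  -- pair `b` with the flipped assignment
  set fl : (Fin m → Bool) → (Fin m → Bool) := fun b => Function.update b v (!(b v)) with hfl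
  have hinv : Function.Involutive fl := by
    intro b
    rw [hfl]
    dsimp only
    rw [Function.update_idem, Function.update_self, Bool.not_not, Function.update_eq_self]
  have hsum : ∀ G : (Fin m → Bool) → ℝ, ∑ b : Fin m → Bool, G (fl b) = ∑ b, G b :=
    fun G => Equiv.sum_comp (hinv.toPerm fl) G
  set G1 : (Fin m → Bool) → ℝ := fun b => WW b * (1 / 4 * F (Function.update b v true) +
      3 / 4 * F (Function.update b v false)) with hG1
  set G2 : (Fin m → Bool) → ℝ := fun b => WW b * F b with hG2
  have key : ∀ b, G1 b + G1 (fl b) = G2 b + G2 (fl b) := by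
    intro b
    have hup : ∀ c, Function.update (fl b) v c = Function.update b v c := by
      intro c; rw [hfl]; dsimp only; rw [Function.update_idem]
    rw [hG1, hG2]
    dsimp only
    rw [hup, hup]
    have hW := WW_update b v (!(b v))
    have hfb : fl b = Function.update b v (!(b v)) := rfl
    rw [hfb]
    have hb' : Function.update b v (b v) = b := Function.update_eq_self _ _
    cases hbv : b v with
    | true =>
      rw [hbv] at hW hb'
      simp only [Bool.not_true, if_true, Bool.false_eq_true, if_false] at hW ⊢
      rw [hb']
      linear_combination (F b - F (Function.update b v false)) * hW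
    | false =>
      rw [hbv] at hW hb'
      simp only [Bool.not_false, if_true, Bool.false_eq_true, if_false] at hW ⊢
      rw [hb']
      linear_combination (F b - F (Function.update b v true)) * hW
  have h2 : ∑ b, G1 b + ∑ b, G1 b = ∑ b, G2 b + ∑ b, G2 b := by
    conv_lhs => rw [← hsum G1]
    conv_rhs => rw [← hsum G2]
    rw [hsum G1]
    nth_rewrite 2 [← hsum G1]
    rw [hsum G2]
    nth_rewrite 2 [← hsum G2]
    rw [← sum_add_distrib, ← sum_add_distrib]
    exact sum_congr rfl fun b _ => key b
  linarith

/-! ### The algorithm -/

/-- two-level perturbed greedy: every offline vertex is independently favoured with probability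
`1/4`; every arrival is matched to the available neighbour maximising `p * level` -/
noncomputable def alg : OnlineAlgorithm where
  Seed m := Fin m → Bool
  seedFintype m := inferInstance
  weight _ b := WW b
  weight_nonneg _ b := WW_nonneg b
  weight_sum _ := WW_sum
  strategy _ b := greedy (lvl b)

theorem alg_value (I : List (Arrival m)) : alg.expectedReward I =
    ∑ b : Fin m → Bool, WW b * (∑ t ∈ range I.length, lam (lvl b) (arr I) t +
      ∑ v : Fin m, (1 - lvl b v) * (1 - avl (lvl b) (arr I) v I.length)) := by
  have h0 : alg.expectedReward I =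
      ∑ b : Fin m → Bool, WW b * (greedy (lvl b)).reward I [] := rfl
  rw [h0]
  apply sum_congr rfl
  intro b _
  congr 1
  rw [reward_greedy, RR_eq, Finset.sum_apply]
  have h1 : avail ([] : History m) = univ := by
    ext v
    rw [mem_avail, mem_consumed]
    simp
  rw [h1]
  exact total_split (lvl b) (arr I) I.length

theorem alg_competitive_LP (I : List (Arrival m)) (x : ℕ → Fin m → ℝ)
    (hx0 : ∀ t v, 0 ≤ x t v) (hx1 : ∀ t, ∑ v : Fin m, x t v ≤ 1)
    (hcap : ∀ v, ∑ t ∈ range I.length, qq (arr I t) v * x t v ≤ 1) :
    503 / 1000 * ∑ v : Fin m, ∑ t ∈ range I.length, qq (arr I t) v * x t v ≤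
      alg.expectedReward I := by
  set n := I.length with hn
  rw [alg_value, mul_sum]
  have hx2 : ∀ t v, x t v ≤ 1 := fun t v =>
    le_trans (Finset.single_le_sum (fun v _ => hx0 t v) (mem_univ v)) (hx1 t)
  have h1 : ∀ v ∈ (univ : Finset (Fin m)),
      503 / 1000 * ∑ t ∈ range n, qq (arr I t) v * x t v ≤
      ∑ b : Fin m → Bool, WW b * Bv b (arr I) n v (fun t => x t v) := by
    intro v _
    rw [← WW_resample v (fun b => Bv b (arr I) n v (fun t => x t v))]
    have h2 : ∀ b ∈ (univ : Finset (Fin m → Bool)),
        WW b * (503 / 1000 * ∑ t ∈ range n, qq (arr I t) v * x t v) ≤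
        WW b * (1 / 4 * Bv (Function.update b v true) (arr I) n v (fun t => x t v) +
          3 / 4 * Bv (Function.update b v false) (arr I) n v (fun t => x t v)) := by
      intro b _
      apply mul_le_mul_of_nonneg_left _ (WW_nonneg b)
      exact per_vertex (arr I) n b v (fun t => x t v) (fun t => hx0 t v)
        (fun t => hx2 t v) (hcap v)
    have h3 := sum_le_sum h2
    rw [← sum_mul, WW_sum, one_mul] at h3
    exact h3
  refine le_trans (sum_le_sum h1) ?_
  rw [sum_comm]
  apply sum_le_sum
  intro b _
  rw [← mul_sum]
  apply mul_le_mul_of_nonneg_left _ (WW_nonneg b)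
  unfold Bv
  rw [sum_add_distrib, add_comm]
  apply add_le_add_left
  rw [sum_comm]
  apply sum_le_sum
  intro t _
  rw [← sum_mul]
  have h4 := mul_le_mul_of_nonneg_right (hx1 t) (lam_nonneg (lvl b) (arr I) t)
  rw [one_mul] at h4
  exact h4

theorem alg_competitive (I : List (Arrival m)) (σ : Strategy m) :
    503 / 1000 * σ.reward I [] ≤ alg.expectedReward I := by
  rw [reward_eq_occ]
  exact alg_competitive_LP I (fun t v => occ σ I [] t v) (fun t v => occ_nonneg σ I [] t v)
    (fun t => occ_sum_le σ I [] t) (fun v => le_trans (occ_capacity σ I [] v) (ind_le_one _))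

theorem alg_competitive_LPFeasible (I : List (Arrival m)) (x : Fin I.length → Fin m → ℝ)
    (hx : LPFeasible I x) : 503 / 1000 * LPvalue I x ≤ alg.expectedReward I := by
  classical
  set y : ℕ → Fin m → ℝ := fun t v => if h : t < I.length then x ⟨t, h⟩ v else 0 with hy
  have hyt : ∀ (t : Fin I.length) v, y t v = x t v := by
    intro t v
    rw [hy]
    dsimp only
    rw [dif_pos t.2]
  have harr : ∀ t : Fin I.length, arr I t = I.get t := by
    intro t
    unfold arr
    rw [List.getD_eq_getElem _ _ t.2]
    rfl
  have hterm : ∀ (t : Fin I.length) v, qq (arr I t) v * y t v = (I.get t).p v * x t v := by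
    intro t v
    rw [hyt, harr]
    by_cases hv : v ∈ (I.get t).nbr
    · rw [qq_of_mem hv]
    · rw [hx.support t v hv, mul_zero, mul_zero]
  have hsum : ∀ v, ∑ t ∈ range I.length, qq (arr I t) v * y t v =
      ∑ t : Fin I.length, (I.get t).p v * x t v := by
    intro v
    rw [Finset.sum_range (fun t => qq (arr I t) v * y t v)]
    exact sum_congr rfl fun t _ => hterm t v
  have h := alg_competitive_LP I y ?_ ?_ ?_
  · have e : LPvalue I x = ∑ v : Fin m, ∑ t ∈ range I.length, qq (arr I t) v * y t v := by
      unfold LPvalue
      rw [sum_comm]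
      exact sum_congr rfl fun v _ => (hsum v).symm
    rw [e]
    exact h
  · intro t v
    rw [hy]; dsimp only
    split_ifs with ht
    · exact hx.nonneg _ _
    · exact le_refl _
  · intro t
    rw [hy]; dsimp only
    by_cases ht : t < I.length
    · have : ∀ v : Fin m, (if h : t < I.length then x ⟨t, h⟩ v else 0) = x ⟨t, ht⟩ v :=
        fun v => dif_pos ht
      rw [sum_congr rfl fun v _ => this v]
      exact hx.online _
    · have : ∀ v : Fin m, (if h : t < I.length then x ⟨t, h⟩ v else 0) = 0 :=
        fun v => dif_neg ht
      rw [sum_congr rfl fun v _ => this v, sum_const_zero]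
      norm_num
  · intro v
    rw [hsum]
    exact hx.offline v

theorem skip_nonempty : Nonempty (Strategy m) :=
  ⟨{ act := fun _ _ => none, legal := fun _ _ _ h => absurd h (by simp) }⟩

theorem bddAbove_reward (I : List (Arrival m)) :
    BddAbove (Set.range fun σ : Strategy m => σ.reward I []) := by
  refine ⟨1000 / 503 * alg.expectedReward I, ?_⟩
  rintro _ ⟨σ, rfl⟩
  have := alg_competitive I σ
  dsimp only
  linarith

theorem alg_competitive_OPT (I : List (Arrival m)) :
    503 / 1000 * OPT I ≤ alg.expectedReward I := by
  haveI := skip_nonempty (m := m)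
  have h : OPT I ≤ 1000 / 503 * alg.expectedReward I := by
    apply ciSup_le
    intro σ
    have := alg_competitive I σ
    linarith
  linarith

/-- an instance with positive optimum -/
theorem exists_pos : ∃ (m : ℕ) (I : List (Arrival m)), 0 < OPT I := by
  classical
  let a : Arrival 1 := { nbr := univ, p := fun _ => 1, p_nonneg := fun _ => by norm_num,
                         p_le_one := fun _ => le_refl _ }
  let σ : Strategy 1 :=
    { act := fun h a => if (0 : Fin 1) ∈ a.nbr ∧ (0 : Fin 1) ∉ consumed h then some 0 else none
      legal := by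
        intro h a v hv
        split_ifs at hv with hc
        · have := Option.some.inj hv
          rw [← this]; exact hc }
  refine ⟨1, [a], ?_⟩
  have h1 : σ.reward [a] [] = 1 := by
    have hact : σ.act [] a = some 0 := by
      show (if (0 : Fin 1) ∈ a.nbr ∧ (0 : Fin 1) ∉ consumed [] then some (0 : Fin 1) else none) = _
      rw [if_pos]
      refine ⟨mem_univ _, ?_⟩
      rw [mem_consumed]; simp
    rw [Strategy.reward, hact]
    simp only [Strategy.reward]
    show (1 : ℝ) * (1 + 0) + (1 - 1) * 0 = 1
    norm_num
  have h2 : σ.reward [a] [] ≤ OPT [a] := le_ciSup (bddAbove_reward [a]) σ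
  linarith

theorem alg_ratio : 503 / 1000 ≤ alg.competitiveRatio := by
  unfold OnlineAlgorithm.competitiveRatio
  apply le_csInf
  · obtain ⟨m, I, h⟩ := exists_pos
    exact ⟨_, m, I, h, rfl⟩
  · rintro ρ ⟨m, I, h, rfl⟩
    rw [le_div_iff₀ h]
    exact alg_competitive_OPT I

end Pool.Agent.helper61.OSR
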