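import Mathlib

/-! # The numerical part -/

namespace Pool.Agent.helper61.OSR

open Finset

/-- `a` decreasing with decrements at least `w t * ξ t`: the quadratic gain. -/
theorem slack_quadratic (a w ξ : ℕ → ℝ) (hw : ∀ t, 0 ≤ w t) (hξ0 : ∀ t, 0 ≤ ξ t)
    (hξ1 : ∀ t, ξ t ≤ 1) (hdec : ∀ t, w t * ξ t ≤ a t - a (t + 1)) (n : ℕ) :
    (∑ t ∈ range n, w t * ξ t) ^ 2 / 2 ≤ ∑ t ∈ range n, w t * (a t - a n) := by
  induction n with
  | zero => simp
  | succ n ih =>
    have hX : ∑ t ∈ range (n + 1), w t * ξ t ≤ ∑ t ∈ range (n + 1), w t := by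
      apply sum_le_sum
      intro t _
      have := mul_le_mul_of_nonneg_left (hξ1 t) (hw t)
      linarith
    have hX0 : 0 ≤ ∑ t ∈ range n, w t * ξ t := sum_nonneg fun t _ => mul_nonneg (hw t) (hξ0 t)
    have hy0 : 0 ≤ w n * ξ n := mul_nonneg (hw n) (hξ0 n)
    have e1 : ∑ t ∈ range (n + 1), w t * (a t - a (n + 1)) =
        ∑ t ∈ range n, w t * (a t - a n) + (a n - a (n + 1)) * ∑ t ∈ range (n + 1), w t := by
      rw [sum_range_succ, sum_range_succ, mul_add, mul_sum, ← add_assoc, ← sum_add_distrib]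
      congr 1
      · apply sum_congr rfl
        intro t _
        ring
      · ring
    have h1 : w n * ξ n * ∑ t ∈ range (n + 1), w t * ξ t ≤
        (a n - a (n + 1)) * ∑ t ∈ range (n + 1), w t := by
      apply mul_le_mul (hdec n) hX
      · exact sum_nonneg fun t _ => mul_nonneg (hw t) (hξ0 t)
      · exact le_trans hy0 (hdec n)
    rw [e1]
    rw [sum_range_succ] at h1 ⊢
    nlinarith

/-- linearised slack bound -/
theorem slack_linear (a w p κ : ℕ → ℝ) (n : ℕ) (s c η : ℝ) (hs : ∑ t ∈ range n, w t = s)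
    (hs1 : s ≤ 1) (hw : ∀ t, 0 ≤ w t) (hwp : ∀ t, w t ≤ p t) (hκ : ∀ t, κ t ≤ 1) (hη : 0 ≤ η)
    (hc : 0 ≤ c)
    (ha0 : a 0 = 1) (hanti : ∀ t, a (t + 1) ≤ a t) (hdec : ∀ t, p t * (κ t - η) ≤ a t - a (t + 1)) :
    c * (∑ t ∈ range n, w t * κ t - η * s) - c ^ 2 * s / 2 ≤
      (1 - a n) - ∑ t ∈ range n, w t * (1 - a t) := by
  set ξ : ℕ → ℝ := fun t => max 0 (κ t - η) with hξ
  have hξ0 : ∀ t, 0 ≤ ξ t := fun t => le_max_left _ _
  have hξ1 : ∀ t, ξ t ≤ 1 := fun t => max_le (by norm_num) (by linarith [hκ t])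
  have hdec' : ∀ t, w t * ξ t ≤ a t - a (t + 1) := by
    intro t
    rw [hξ]
    dsimp only
    rcases le_total (κ t - η) 0 with h | h
    · rw [max_eq_left h, mul_zero]; linarith [hanti t]
    · rw [max_eq_right h]
      exact le_trans (mul_le_mul_of_nonneg_right (hwp t) h) (hdec t)
  have hq := slack_quadratic a w ξ hw hξ0 hξ1 hdec' n
  set X := ∑ t ∈ range n, w t * ξ t with hX
  have hX0 : 0 ≤ X := sum_nonneg fun t _ => mul_nonneg (hw t) (hξ0 t)
  have hXs : X ≤ s := by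
    rw [← hs]
    apply sum_le_sum
    intro t _
    have := mul_le_mul_of_nonneg_left (hξ1 t) (hw t)
    linarith
  have hs0 : 0 ≤ s := le_trans hX0 hXs
  have hXY : ∑ t ∈ range n, w t * κ t - η * s ≤ X := by
    rw [← hs, mul_sum, ← sum_sub_distrib]
    apply sum_le_sum
    intro t _
    have h1 : κ t - η ≤ ξ t := le_max_right _ _
    have := mul_le_mul_of_nonneg_left h1 (hw t)
    nlinarith
  have htel : X ≤ 1 - a n := by
    have h1 : ∀ k, ∑ t ∈ range k, w t * ξ t ≤ 1 - a k := by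
      intro k
      induction k with
      | zero => simp [ha0]
      | succ k ih => rw [sum_range_succ]; linarith [hdec' k]
    exact h1 n
  have e1 : (1 - a n) - ∑ t ∈ range n, w t * (1 - a t) =
      (1 - s) * (1 - a n) + ∑ t ∈ range n, w t * (a t - a n) := by
    have : ∑ t ∈ range n, w t * (a t - a n) =
        ∑ t ∈ range n, w t * (1 - a n) - ∑ t ∈ range n, w t * (1 - a t) := by
      rw [← sum_sub_distrib]
      apply sum_congr rfl
      intro t _
      ring
    rw [this, ← sum_mul, hs]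
    ring
  rw [e1]
  have h2 : (1 - s) * X ≤ (1 - s) * (1 - a n) :=
    mul_le_mul_of_nonneg_left htel (by linarith)
  have h3 : c * X - c ^ 2 * s / 2 ≤ (1 - s) * X + X ^ 2 / 2 := by
    rcases eq_or_lt_of_le hs0 with h0 | h0
    · have : X = 0 := le_antisymm (h0 ▸ hXs) hX0
      rw [this, ← h0]; simp
    · have h4 : 0 ≤ s * ((1 - s) * X + X ^ 2 / 2 - (c * X - c ^ 2 * s / 2)) := by
        have : s * ((1 - s) * X + X ^ 2 / 2 - (c * X - c ^ 2 * s / 2)) =
            (X - c * s) ^ 2 / 2 + (1 - s) * X * (s - X / 2) := by ring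
        rw [this]
        have h5 : 0 ≤ (1 - s) * X * (s - X / 2) :=
          mul_nonneg (mul_nonneg (by linarith) hX0) (by linarith)
        positivity
      have h6 := nonneg_of_mul_nonneg_right h4 h0
      linarith
  have h7 : c * (∑ t ∈ range n, w t * κ t - η * s) ≤ c * X := mul_le_mul_of_nonneg_left hXY hc
  linarith

/-- The final numerical inequality for one offline vertex. -/
theorem per_vertex_numeric (n : ℕ) (w p a1 a0 l u k M : ℕ → ℝ) (s B1 B0 : ℝ)
    (hs : ∑ t ∈ range n, w t = s) (hs1 : s ≤ 1) (hw : ∀ t, 0 ≤ w t) (hwp : ∀ t, w t ≤ p t)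
    (h10 : a1 0 = 1) (h1anti : ∀ t, a1 (t + 1) ≤ a1 t)
    (h00 : a0 0 = 1) (h0anti : ∀ t, a0 (t + 1) ≤ a0 t)
    (hl1 : ∀ t, l t ≤ 1) (hk1 : ∀ t, k t ≤ 1)
    (hka : ∀ t, k t ≤ a0 t) (hkM : ∀ t, k t ≤ M t) (huM : ∀ t, u t ≤ M t)
    (hdec1 : ∀ t, p t * (l t - 2 / 49) ≤ a1 t - a1 (t + 1))
    (hdec0 : ∀ t, p t * (k t - 2 / 49) ≤ a0 t - a0 (t + 1))
    (hB1 : 51 / 100 * (1 - a1 n) +
      ∑ t ∈ range n, w t * (49 / 100 * (l t + u t) + 51 / 100 * (a1 t - l t - u t)) ≤ B1)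
    (hB0 : 49 / 100 * (1 - a0 n) +
      ∑ t ∈ range n, w t * (51 / 100 * a0 t + 49 / 100 * (M t - k t)) ≤ B0) :
    503 / 1000 * s ≤ 1 / 4 * B0 + 3 / 4 * B1 := by
  have hs0 : 0 ≤ s := by rw [← hs]; exact sum_nonneg fun t _ => hw t
  have s1 := slack_linear a1 w p l n s (2 / 51) (2 / 49) hs hs1 hw hwp hl1 (by norm_num)
    (by norm_num) h10 h1anti hdec1
  have s0 := slack_linear a0 w p k n s (4 / 49) (2 / 49) hs hs1 hw hwp hk1 (by norm_num)
    (by norm_num) h00 h0anti hdec0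
  set L := ∑ t ∈ range n, w t * l t with hL
  set U := ∑ t ∈ range n, w t * u t with hU
  set K := ∑ t ∈ range n, w t * k t with hK
  set MM := ∑ t ∈ range n, w t * M t with hMM
  set A1 := ∑ t ∈ range n, w t * a1 t with hA1
  set A0 := ∑ t ∈ range n, w t * a0 t with hA0
  have e1 : ∑ t ∈ range n, w t * (49 / 100 * (l t + u t) + 51 / 100 * (a1 t - l t - u t)) =
      51 / 100 * A1 - 2 / 100 * (L + U) := by
    rw [hA1, hL, hU, mul_sum, ← sum_add_distrib, mul_sum, ← sum_sub_distrib]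
    apply sum_congr rfl
    intro t _
    ring
  have e0 : ∑ t ∈ range n, w t * (51 / 100 * a0 t + 49 / 100 * (M t - k t)) =
      51 / 100 * A0 + 49 / 100 * (MM - K) := by
    rw [hA0, hMM, hK, mul_sum, ← sum_sub_distrib, mul_sum, ← sum_add_distrib]
    apply sum_congr rfl
    intro t _
    ring
  have f1 : ∑ t ∈ range n, w t * (1 - a1 t) = s - A1 := by
    rw [← hs, hA1, ← sum_sub_distrib]
    apply sum_congr rfl
    intro t _
    ring
  have f0 : ∑ t ∈ range n, w t * (1 - a0 t) = s - A0 := by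
    rw [← hs, hA0, ← sum_sub_distrib]
    apply sum_congr rfl
    intro t _
    ring
  rw [e1] at hB1
  rw [e0] at hB0
  rw [f1] at s1
  rw [f0] at s0
  have g1 : K ≤ A0 := sum_le_sum fun t _ => mul_le_mul_of_nonneg_left (hka t) (hw t)
  have g2 : K ≤ MM := sum_le_sum fun t _ => mul_le_mul_of_nonneg_left (hkM t) (hw t)
  have g3 : U ≤ MM := sum_le_sum fun t _ => mul_le_mul_of_nonneg_left (huM t) (hw t)
  linarith

end Pool.Agent.helper61.OSR
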