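import Pool.Agent.helper61.OSR.Chain
import Pool.Agent.helper61.OSR.Slack

/-! # The inequality for one offline vertex -/

namespace Pool.Agent.helper61.OSR

open Finset

variable {m : ℕ}

/-- the level weights -/
noncomputable def lvl (b : Fin m → Bool) (v : Fin m) : ℝ := if b v then 51 / 100 else 49 / 100

theorem lvl_true {b : Fin m → Bool} {v : Fin m} (h : b v = true) : lvl b v = 51 / 100 := by
  unfold lvl; rw [if_pos h]

theorem lvl_false {b : Fin m → Bool} {v : Fin m} (h : b v = false) : lvl b v = 49 / 100 := by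
  unfold lvl; rw [if_neg (by rw [h]; simp)]

theorem lvl_bounds (b : Fin m → Bool) (v : Fin m) : 49 / 100 ≤ lvl b v ∧ lvl b v ≤ 51 / 100 := by
  unfold lvl; split_ifs <;> norm_num

theorem lvl_update_ne (b : Fin m → Bool) (v : Fin m) (c c' : Bool) :
    ∀ w, w ≠ v → lvl (Function.update b v c) w = lvl (Function.update b v c') w := by
  intro w hw
  unfold lvl
  rw [Function.update_of_ne hw, Function.update_of_ne hw]

open Classical in
/-- indicator -/
noncomputable def ind (P : Prop) : ℝ := if P then 1 else 0

theorem ind_pos {P : Prop} (h : P) : ind P = 1 := by unfold ind; rw [if_pos h]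
theorem ind_neg {P : Prop} (h : ¬ P) : ind P = 0 := by unfold ind; rw [if_neg h]
theorem ind_nonneg (P : Prop) : 0 ≤ ind P := by unfold ind; split_ifs <;> norm_num
theorem ind_le_one (P : Prop) : ind P ≤ 1 := by unfold ind; split_ifs <;> norm_num

/-- probability that `v` is still available at time `t` -/
noncomputable def avl (f : Fin m → ℝ) (a : ℕ → Arrival m) (v : Fin m) (t : ℕ) : ℝ :=
  Ex (stepG f) a t (fun S => ind (v ∈ S)) univ

/-- probability that `v` is chosen at time `t` -/
noncomputable def chs (f : Fin m → ℝ) (a : ℕ → Arrival m) (v : Fin m) (t : ℕ) : ℝ :=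
  Ex (stepG f) a t (fun S => ind (choice f (a t) S = some v)) univ

/-- expected value of the choice at time `t` -/
noncomputable def lam (f : Fin m → ℝ) (a : ℕ → Arrival m) (t : ℕ) : ℝ :=
  Ex (stepG f) a t (val f (a t)) univ

theorem avl_zero (f : Fin m → ℝ) (a : ℕ → Arrival m) (v : Fin m) : avl f a v 0 = 1 := by
  unfold avl; rw [Ex_zero]; exact ind_pos (mem_univ v)

theorem chs_nonneg (f : Fin m → ℝ) (a : ℕ → Arrival m) (v : Fin m) (t : ℕ) :
    0 ≤ chs f a v t := by
  have h := ExG_mono f a t (φ := 0) (ψ := fun S => ind (choice f (a t) S = some v))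
    (fun S => ind_nonneg _) univ
  rw [map_zero] at h
  exact h

theorem lam_nonneg (f : Fin m → ℝ) (a : ℕ → Arrival m) (t : ℕ) : 0 ≤ lam f a t := by
  have h := ExG_mono f a t (φ := 0) (ψ := val f (a t)) (fun S => val_nonneg _ _ _) univ
  rw [map_zero] at h
  exact h

theorem stepG_ind (f : Fin m → ℝ) (a : Arrival m) (v : Fin m) :
    stepG f a (fun S => ind (v ∈ S)) =
      (fun S => ind (v ∈ S)) - qq a v • (fun S => ind (choice f a S = some v)) := by
  funext S
  rw [stepG_apply]
  simp only [Pi.sub_apply, Pi.smul_apply, smul_eq_mul]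
  cases hc : choice f a S with
  | none =>
    rw [prb_none hc, nxt_none hc, ind_neg (P := (none : Option (Fin m)) = some v) (by simp)]
    ring
  | some w =>
    rw [prb_some hc, nxt_some hc]
    by_cases hwv : w = v
    · subst hwv
      rw [ind_pos (P := some w = some w) rfl, ind_pos (choice_eq_some.mp hc).1,
        ind_neg (Finset.notMem_erase w S)]
      ring
    · have h1 : (v ∈ S.erase w) ↔ v ∈ S := by
        rw [Finset.mem_erase]
        exact ⟨fun h => h.2, fun h => ⟨Ne.symm hwv, h⟩⟩
      have h2 : ind (v ∈ S.erase w) = ind (v ∈ S) := by rw [h1]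
      rw [h2, ind_neg (P := some w = some v) (by simpa using hwv)]
      ring

theorem avl_succ (f : Fin m → ℝ) (a : ℕ → Arrival m) (v : Fin m) (t : ℕ) :
    avl f a v t - avl f a v (t + 1) = qq (a t) v * chs f a v t := by
  unfold avl chs
  rw [Ex_succ, stepG_ind, map_sub, map_smul]
  simp only [Pi.sub_apply, Pi.smul_apply, smul_eq_mul]
  ring

/-- what the vertex `v` and its partners (weights `x`) receive -/
noncomputable def Bv (b : Fin m → Bool) (a : ℕ → Arrival m) (n : ℕ) (v : Fin m) (x : ℕ → ℝ) : ℝ :=
  (1 - lvl b v) * (1 - avl (lvl b) a v n) + ∑ t ∈ range n, x t * lam (lvl b) a t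

section coupling

variable {f f' : Fin m → ℝ} {v : Fin m}

theorem inv_start (v : Fin m) : Inv v (univ, univ.erase v) :=
  ⟨Finset.subset_univ _, Finset.notMem_erase v _⟩

/-- transfer of a pointwise inequality on the invariant -/
theorem ExC_le (hf : ∀ w, w ≠ v → f' w = f w) (a : ℕ → Arrival m) (t : ℕ)
    {φ ψ : Finset (Fin m) × Finset (Fin m) → ℝ} (h : ∀ s, Inv v s → φ s ≤ ψ s) :
    Ex (stepC f f') a t φ (univ, univ.erase v) ≤ Ex (stepC f f') a t ψ (univ, univ.erase v) :=
  ExC_mono hf a t h _ (inv_start v)

theorem ExC_fst (a : ℕ → Arrival m) (t : ℕ) (φ : Finset (Fin m) → ℝ) :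
    Ex (stepC f f') a t (fun s => φ s.1) (univ, univ.erase v) = Ex (stepG f) a t φ univ := by
  rw [Ex_fst]

theorem ExC_snd (a : ℕ → Arrival m) (t : ℕ) (φ : Finset (Fin m) → ℝ) :
    Ex (stepC f f') a t (fun s => φ s.2) (univ, univ.erase v) =
      Ex (stepG f') a t φ (univ.erase v) := by
  rw [Ex_snd]

theorem ExC_one (a : ℕ → Arrival m) (t : ℕ) :
    Ex (stepC f f') a t (fun _ => (1 : ℝ)) (univ, univ.erase v) = 1 := by
  rw [ExC_fst a t (fun _ => (1 : ℝ)), ExG_one]

/-- If, on synchronised states, the event `E` forces the choice of `v`, then `v` is chosen with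
probability at least `P(E) - η`. -/
theorem choice_prob (hf : ∀ w, w ≠ v → f' w = f w)
    {η lo hi : ℝ} (hη : 0 ≤ η) (hlo : 0 < lo) (hlohi : hi ≤ (1 + η) * lo)
    (hb : ∀ w, lo ≤ f w ∧ f w ≤ hi) (a : ℕ → Arrival m) (t : ℕ)
    (E : Finset (Fin m) × Finset (Fin m) → Prop)
    (hE : ∀ s, Inv v s → E s → v ∈ s.1 ∧ (s.1 = insert v s.2 → choice f (a t) s.1 = some v)) :
    Ex (stepC f f') a t (fun s => ind (E s)) (univ, univ.erase v) - η ≤ chs f a v t := by
  have h1 : Ex (stepC f f') a t
      ((fun s => ind (E s)) - (fun s => ind (choice f (a t) s.1 = some v))) (univ, univ.erase v) ≤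
      Ex (stepC f f') a t (Psi η v + η • (fun _ => (1 : ℝ))) (univ, univ.erase v) := by
    apply ExC_le hf
    intro s hs
    simp only [Pi.sub_apply, Pi.add_apply, Pi.smul_apply, smul_eq_mul, mul_one]
    by_cases hES : E s
    · obtain ⟨hv, hsync⟩ := hE s hs hES
      by_cases hsy : s.1 = insert v s.2
      · rw [ind_pos hES, ind_pos (hsync hsy), Psi_sync hsy]
        linarith
      · have e0 : Psi η v s = 1 := by
          unfold Psi; rw [if_pos hv, if_neg hsy]
        rw [e0]
        have := ind_nonneg (choice f (a t) s.1 = some v)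
        have := ind_le_one (E s)
        linarith
    · rw [ind_neg hES]
      have h2 := ind_nonneg (choice f (a t) s.1 = some v)
      have h3 : -η ≤ Psi η v s := by
        unfold Psi; split_ifs <;> linarith
      linarith
  have h2 := ExC_Psi hf hη hlo hlohi hb a t _ (inv_start v)
  have h3 : Psi η v (univ, univ.erase v) = 0 := by
    apply Psi_sync
    dsimp only
    rw [Finset.insert_erase (mem_univ v)]
  rw [h3] at h2
  rw [map_sub, map_add, map_smul] at h1
  simp only [Pi.sub_apply, Pi.add_apply, Pi.smul_apply, smul_eq_mul] at h1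
  rw [ExC_one, ExC_fst a t (fun S => ind (choice f (a t) S = some v))] at h1
  unfold chs
  linarith

end coupling

theorem per_vertex (a : ℕ → Arrival m) (n : ℕ) (b : Fin m → Bool) (v : Fin m) (x : ℕ → ℝ)
    (hx0 : ∀ t, 0 ≤ x t) (hx1 : ∀ t, x t ≤ 1) (hs1 : ∑ t ∈ range n, qq (a t) v * x t ≤ 1) :
    503 / 1000 * ∑ t ∈ range n, qq (a t) v * x t ≤
      1 / 4 * Bv (Function.update b v true) a n v x +
        3 / 4 * Bv (Function.update b v false) a n v x := by
  set f1 := lvl (Function.update b v false) with hf1
  set f0 := lvl (Function.update b v true) with hf0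
  have hv1 : f1 v = 49 / 100 := lvl_false (by rw [Function.update_self])
  have hv0 : f0 v = 51 / 100 := lvl_true (by rw [Function.update_self])
  have agr1 : ∀ w, w ≠ v → f1 w = f1 w := fun _ _ => rfl
  have agr0 : ∀ w, w ≠ v → f1 w = f0 w := lvl_update_ne b v false true
  -- events
  set rr : ℕ → Finset (Fin m) × Finset (Fin m) → ℝ := fun t s => val f1 (a t) s.2 with hrr
  set EL : ℕ → Finset (Fin m) × Finset (Fin m) → Prop := fun t s =>
    v ∈ s.1 ∧ rr t s < qq (a t) v * (49 / 100) with hEL
  set MM : ℕ → Finset (Fin m) → Prop := fun t S' =>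
    qq (a t) v * (49 / 100) ≤ val f1 (a t) S' ∧ val f1 (a t) S' < qq (a t) v * (51 / 100) with hMM
  set EM : ℕ → Finset (Fin m) × Finset (Fin m) → Prop := fun t s =>
    v ∈ s.1 ∧ MM t s.2 with hEM
  set l : ℕ → ℝ := fun t => Ex (stepC f1 f1) a t (fun s => ind (EL t s)) (univ, univ.erase v)
    with hl
  set u : ℕ → ℝ := fun t => Ex (stepC f1 f1) a t (fun s => ind (EM t s)) (univ, univ.erase v)
    with hu
  set k : ℕ → ℝ := fun t => Ex (stepC f0 f1) a t (fun s => ind (EM t s)) (univ, univ.erase v)
    with hk
  set M : ℕ → ℝ := fun t => Ex (stepG f1) a t (fun S' => ind (MM t S')) (univ.erase v) with hM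
  have hb1 : ∀ w, (49 / 100 : ℝ) ≤ f1 w ∧ f1 w ≤ 51 / 100 := fun w => lvl_bounds _ w
  have hb0 : ∀ w, (49 / 100 : ℝ) ≤ f0 w ∧ f0 w ≤ 51 / 100 := fun w => lvl_bounds _ w
  apply per_vertex_numeric n (fun t => qq (a t) v * x t) (fun t => qq (a t) v)
    (avl f1 a v) (avl f0 a v) l u k M _ _ _ rfl hs1
  · exact fun t => mul_nonneg (qq_nonneg _ _) (hx0 t)
  · intro t
    have := mul_le_mul_of_nonneg_left (hx1 t) (qq_nonneg (a t) v)
    linarith
  · exact avl_zero _ _ _
  · intro t
    have h1 := avl_succ f1 a v t
    have h2 := mul_nonneg (qq_nonneg (a t) v) (chs_nonneg f1 a v t)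
    linarith
  · exact avl_zero _ _ _
  · intro t
    have h1 := avl_succ f0 a v t
    have h2 := mul_nonneg (qq_nonneg (a t) v) (chs_nonneg f0 a v t)
    linarith
  · intro t
    rw [hl]
    dsimp only
    rw [← ExC_one (f := f1) (f' := f1) (v := v) a t]
    exact ExC_le agr1 a t (fun s _ => ind_le_one _)
  · intro t
    rw [hk]
    dsimp only
    rw [← ExC_one (f := f0) (f' := f1) (v := v) a t]
    exact ExC_le agr0 a t (fun s _ => ind_le_one _)
  · -- k ≤ a0
    intro t
    rw [hk]
    dsimp only
    unfold avl
    rw [← ExC_fst (f := f0) (f' := f1) (v := v) a t (fun S => ind (v ∈ S))]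
    apply ExC_le agr0
    intro s _
    by_cases h : EM t s
    · rw [ind_pos h, ind_pos h.1]
    · rw [ind_neg h]; exact ind_nonneg _
  · -- k ≤ M
    intro t
    rw [hk, hM]
    dsimp only
    rw [← ExC_snd (f := f0) (f' := f1) (v := v) a t (fun S' => ind (MM t S'))]
    apply ExC_le agr0
    intro s _
    by_cases h : EM t s
    · rw [ind_pos h, ind_pos h.2]
    · rw [ind_neg h]; exact ind_nonneg _
  · -- u ≤ M
    intro t
    rw [hu, hM]
    dsimp only
    rw [← ExC_snd (f := f1) (f' := f1) (v := v) a t (fun S' => ind (MM t S'))]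
    apply ExC_le agr1
    intro s _
    by_cases h : EM t s
    · rw [ind_pos h, ind_pos h.2]
    · rw [ind_neg h]; exact ind_nonneg _
  · -- decrement, level 1
    intro t
    rw [avl_succ]
    apply mul_le_mul_of_nonneg_left _ (qq_nonneg _ _)
    apply choice_prob agr1 (by norm_num : (0 : ℝ) ≤ 2 / 49) (lo := 49 / 100) (hi := 51 / 100)
      (by norm_num) (by norm_num) hb1
    intro s hs hEs
    refine ⟨hEs.1, fun hsync => ?_⟩
    rw [hsync]
    apply choice_insert (f' := f1) (fun w hw => rfl)
    rw [hv1]
    exact hEs.2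
  · -- decrement, level 0
    intro t
    rw [avl_succ]
    apply mul_le_mul_of_nonneg_left _ (qq_nonneg _ _)
    apply choice_prob agr0 (by norm_num : (0 : ℝ) ≤ 2 / 49) (lo := 49 / 100) (hi := 51 / 100)
      (by norm_num) (by norm_num) hb0
    intro s hs hEs
    refine ⟨hEs.1, fun hsync => ?_⟩
    rw [hsync]
    apply choice_insert (f' := f1) (fun w hw => agr0 w (fun h => hs.2 (h ▸ hw)))
    rw [hv0]
    exact hEs.2.2
  · -- B1
    unfold Bv
    rw [← hf1, hv1]
    have h0 : ∀ t ∈ range n, qq (a t) v * x t * (49 / 100 * (l t + u t) +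
        51 / 100 * (avl f1 a v t - l t - u t)) ≤ x t * lam f1 a t := by
      intro t _
      have h1 : qq (a t) v * (49 / 100 * (l t + u t) +
          51 / 100 * (avl f1 a v t - l t - u t)) ≤ lam f1 a t := by
        have h2 : Ex (stepC f1 f1) a t ((qq (a t) v) • ((49 / 100 : ℝ) •
            ((fun s => ind (EL t s)) + (fun s => ind (EM t s))) + (51 / 100 : ℝ) •
            ((fun s => ind (v ∈ s.1)) - (fun s => ind (EL t s)) - (fun s => ind (EM t s)))))
            (univ, univ.erase v) ≤
            Ex (stepC f1 f1) a t (fun s => val f1 (a t) s.1) (univ, univ.erase v) := by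
          apply ExC_le agr1
          intro s hs
          simp only [Pi.smul_apply, Pi.add_apply, Pi.sub_apply, smul_eq_mul]
          by_cases hvs : v ∈ s.1
          · rw [ind_pos hvs]
            have hle := le_val (f := f1) (a := a t) hvs
            rw [hv1] at hle
            have hmono : val f1 (a t) s.2 ≤ val f1 (a t) s.1 :=
              val_mono hs.1 (fun w _ => rfl)
            by_cases hL : rr t s < qq (a t) v * (49 / 100)
            · have hM' : ¬ EM t s := fun h => absurd h.2.1 (not_le.mpr hL)
              rw [ind_pos (P := EL t s) ⟨hvs, hL⟩, ind_neg hM']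
              linarith
            · have hL' : ¬ EL t s := fun h => hL h.2
              rw [ind_neg hL']
              by_cases hH : val f1 (a t) s.2 < qq (a t) v * (51 / 100)
              · rw [ind_pos (P := EM t s) ⟨hvs, not_lt.mp hL, hH⟩]
                linarith
              · rw [ind_neg (P := EM t s) (fun h => hH h.2.2)]
                push Not at hH
                linarith
          · rw [ind_neg hvs, ind_neg (P := EL t s) (fun h => hvs h.1),
              ind_neg (P := EM t s) (fun h => hvs h.1)]
            have := val_nonneg f1 (a t) s.1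
            linarith
        rw [map_smul, map_add, map_smul, map_smul, map_add, map_sub, map_sub] at h2
        simp only [Pi.smul_apply, Pi.add_apply, Pi.sub_apply, smul_eq_mul] at h2
        rw [ExC_fst a t (fun S => ind (v ∈ S)), ExC_fst a t (fun S => val f1 (a t) S)] at h2
        exact h2
      have h3 := mul_le_mul_of_nonneg_left h1 (hx0 t)
      linarith
    have h4 := sum_le_sum h0
    linarith
  · -- B0
    unfold Bv
    rw [← hf0, hv0]
    have h0 : ∀ t ∈ range n, qq (a t) v * x t * (51 / 100 * avl f0 a v t +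
        49 / 100 * (M t - k t)) ≤ x t * lam f0 a t := by
      intro t _
      have h1 : qq (a t) v * (51 / 100 * avl f0 a v t +
        49 / 100 * (M t - k t)) ≤ lam f0 a t := by
        have h2 : Ex (stepC f0 f1) a t ((qq (a t) v) • ((51 / 100 : ℝ) •
            (fun s => ind (v ∈ s.1)) + (49 / 100 : ℝ) •
            ((fun s => ind (MM t s.2)) - (fun s => ind (EM t s)))))
            (univ, univ.erase v) ≤
            Ex (stepC f0 f1) a t (fun s => val f0 (a t) s.1) (univ, univ.erase v) := by
          apply ExC_le agr0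
          intro s hs
          simp only [Pi.smul_apply, Pi.add_apply, Pi.sub_apply, smul_eq_mul]
          by_cases hvs : v ∈ s.1
          · rw [ind_pos hvs]
            have hle := le_val (f := f0) (a := a t) hvs
            rw [hv0] at hle
            by_cases hM' : MM t s.2
            · rw [ind_pos hM', ind_pos (P := EM t s) ⟨hvs, hM'⟩]
              linarith
            · rw [ind_neg hM', ind_neg (P := EM t s) (fun h => hM' h.2)]
              linarith
          · rw [ind_neg hvs, ind_neg (P := EM t s) (fun h => hvs h.1)]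
            by_cases hM' : MM t s.2
            · rw [ind_pos hM']
              have hmono : val f1 (a t) s.2 ≤ val f0 (a t) s.1 :=
                val_mono hs.1 (agree agr0 hs)
              have := hM'.1
              linarith
            · rw [ind_neg hM']
              have := val_nonneg f0 (a t) s.1
              linarith
        rw [map_smul, map_add, map_smul, map_smul, map_sub] at h2
        simp only [Pi.smul_apply, Pi.add_apply, Pi.sub_apply, smul_eq_mul] at h2
        rw [ExC_fst a t (fun S => ind (v ∈ S)), ExC_fst a t (fun S => val f0 (a t) S),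
          ExC_snd a t (fun S' => ind (MM t S'))] at h2
        exact h2
      have h3 := mul_le_mul_of_nonneg_left h1 (hx0 t)
      linarith
    have h4 := sum_le_sum h0
    linarith

end Pool.Agent.helper61.OSR
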